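import Pool.Agent.H.MP_6a54e9_co.A

namespace Pool.Agent.Results.MP_6a54e9_co.Disjoint

open Classical in
theorem result : ¬ ∀ (d k m : ℕ), 2 ≤ d → m ≤ k → k ≤ d →
    ∀ S₁ S₂ : Finset (EuclideanSpace ℝ (Fin d)), S₁.card = k + 1 → S₂.card = m + 1 →
      (∀ x ∈ S₁, ∀ y ∈ S₁, x ≠ y → dist x y = 1) → (∀ x ∈ S₂, ∀ y ∈ S₂, x ≠ y → dist x y = 1) →
      (∀ x ∈ S₁ ∪ S₂, ∀ y ∈ S₁ ∪ S₂, dist x y ≤ 1) →
      max 0 ((k : ℤ) + 2 * m - 2 * d + 1) ≤ ((S₁ ∩ S₂).card : ℤ) := by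
  intro h
  obtain ⟨S, T, h1, h2, h3, h4, h5⟩ := H.MP_6a54e9_co.ex
  have e : S ∩ T = ∅ := Finset.eq_empty_of_forall_notMem fun x hx =>
    (h5 x (Finset.mem_inter.1 hx).1 x (Finset.mem_inter.1 hx).2).2 rfl
  have := h 12 8 8 (by norm_num) le_rfl (by norm_num) S T h1 h2 h3 h4 fun x hx y hy => by
    by_cases n : x = y
    · simp [n]
    rcases Finset.mem_union.1 hx with hx | hx <;> rcases Finset.mem_union.1 hy with hy | hy
    exacts [(h3 x hx y hy n).le, (h5 x hx y hy).1, dist_comm x y ▸ (h5 y hy x hx).1,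
      (h4 x hx y hy n).le]
  rw [e] at this
  norm_num at this

end Pool.Agent.Results.MP_6a54e9_co.Disjoint
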